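import Pool.Agent.LibGeo.Complete

/-!
MP_f934c9_lc: isomorphism of geodetic graphs is as hard as isomorphism of arbitrary graphs
(GI-complete), also for 2-connected geodetic graphs of diameter at most five.
-/

set_option autoImplicit false

namespace Pool.Agent.Results.MP_f934c9_lc.GeodeticGIComplete

open Pool.Agent.LibGeo Pool.Agent.LibComplexity

/-- Isomorphism of geodetic graphs is GI-complete, and there is a polynomial-time algorithm for it
iff graph isomorphism is in `P`; the same for 2-connected geodetic graphs of diameter at most 5. -/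
theorem result :
    -- the language of pairs of isomorphic geodetic graphs is many-one equivalent to `GI`
    (PolyRed GI (isoLang fun _ G => Geodetic G) ∧ PolyRed (isoLang fun _ G => Geodetic G) GI) ∧
    -- a polynomial-time algorithm for pairs of geodetic graphs exists iff `GI` is in `P`
    ((IsoInPolyTime fun _ G => Geodetic G) ↔ InP ∅ GI) ∧
    -- the same for 2-connected geodetic graphs of diameter at most five
    (PolyRed GI (isoLang fun _ G => Geodetic G ∧ TwoConnected G ∧ DiamLE G 5) ∧
      ((IsoInPolyTime fun _ G => Geodetic G ∧ TwoConnected G ∧ DiamLE G 5) ↔ InP ∅ GI)) ∧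
    -- the reduction maps every pair of graphs to a pair of 2-connected geodetic graphs
    ∃ f : List Bool → List Bool, InFP ∅ f ∧
      ∀ (n m : ℕ) (G : SimpleGraph (Fin n)) (H : SimpleGraph (Fin m)),
        ∃ (n' m' : ℕ) (G' : SimpleGraph (Fin n')) (H' : SimpleGraph (Fin m')),
          f (encodePair G H) = encodePair G' H' ∧
          (Geodetic G' ∧ TwoConnected G' ∧ DiamLE G' 5) ∧
          (Geodetic H' ∧ TwoConnected H' ∧ DiamLE H' 5) ∧
          (Nonempty (G' ≃g H') ↔ Nonempty (G ≃g H)) :=
  ⟨⟨polyRed_to fun _ _ h => h.1, polyRed_from⟩, isoInPolyTime_geodetic_iff,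
    ⟨polyRed_to fun _ _ h => h, isoInPolyTime_block_iff⟩,
    red, inFP_iff.2 ptf_red, fun _ _ G H => red_spec G H⟩

end Pool.Agent.Results.MP_f934c9_lc.GeodeticGIComplete
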